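import Pool.Agent.H12.KSJ.Targets

/-!
# Project KEW, surjectivity, row ISZ: isolation at level zero
-/

open CategoryTheory TopologicalSpace Opposite AlgebraicGeometry Limits
open Pool.Agent.H62.MK Pool.Agent.H84.KEW Pool.Agent.H19.KN
open Pool.Agent.H17.KW (kap Pts entry column dFam D dD Gersten topSh KSh redSh thick thickι Fsh AbSh
  cycK)
open Pool.Agent.H12.KG (Sp GenSp kA stA rho projStr)

universe u

namespace Pool.Agent.H35.KSJ

open Pool.Agent.H12.KSJ

theorem isz_closed {X : Scheme.{u}} {d : ℕ} (hdim : ∀ x : X, Order.coheight x ≤ d + 1) (x : X)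
    (hx : (d : ℕ∞) + 1 ≤ Order.coheight x) : IsClosed ({x} : Set X) := by
  have : closure ({x} : Set X) = {x} := by
    refine Set.Subset.antisymm ?_ subset_closure
    intro y hy
    have hxy : x ⤳ y := specializes_iff_mem_closure.2 hy
    by_contra hne
    have h1 := Pool.Agent.H15.KEW.coheight_add_one_le hxy (fun e => hne e.symm)
    have h2 : ((d : ℕ∞) + 1) + 1 ≤ d + 1 := (add_le_add_left hx 1).trans (h1.trans (hdim y))
    have h3 : d + 1 + 1 ≤ d + 1 := by exact_mod_cast h2
    omega
  rw [← this]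
  exact isClosed_closure

theorem isz_pts {X : Scheme.{u}} {d s : ℕ} (v : Pts X d s) :
    ∃ c : ℕ, Order.coheight v.1 = (c : ℕ∞) ∧ c + s = d := by
  have h := v.2
  have h1 : Order.coheight v.1 ≠ ⊤ := by
    intro h2
    rw [h2, top_add] at h
    exact ENat.top_ne_natCast _ h
  obtain ⟨c, hc⟩ := ENat.ne_top_iff_exists.1 h1
  refine ⟨c, hc.symm, ?_⟩
  rw [← hc] at h
  exact_mod_cast h

theorem pf_ISZ : T_ISZ.{u} := by
  intro A _ X _ f π e hdim huniq R y hy hdl g
  have hdim' : ∀ x : X, Order.coheight x ≤ ((e + 1 : ℕ) : ℕ∞) + 1 := by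
    intro x
    have := hdim x
    have e1 : ((e + 1 : ℕ) : ℕ∞) + 1 = (e : ℕ∞) + 2 := by
      push_cast
      rw [add_assoc, one_add_one_eq_two]
    rw [e1]
    exact this
  -- points with `dl = 0` are closed
  have hcl : ∀ x : X, dl (X := X) (e + 1) x = 0 → IsClosed ({x} : Set X) := by
    intro x hx
    refine isz_closed hdim' x ?_
    unfold dl at hx
    have h1 := hdim' x
    have h2 : Order.coheight x ≠ ⊤ := by
      intro h
      rw [h] at h1
      exact absurd h1 (by
        rw [not_le]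
        exact_mod_cast ENat.natCast_lt_top (e + 1 + 1))
    obtain ⟨c, hc⟩ := ENat.ne_top_iff_exists.1 h2
    rw [← hc] at hx h1 ⊢
    rw [ENat.toNat_natCast] at hx
    have h3 : e + 1 + 1 ≤ c := by omega
    exact_mod_cast h3
  -- points of level zero specialise to closed points only
  have hv : ∀ v : HPts f π (e + 1) 0, ∀ x : X, v.1.1 ⤳ x → x ≠ v.1.1 →
      IsClosed ({x} : Set X) := by
    intro v x hvx hne
    refine isz_closed hdim' x ?_
    obtain ⟨k, hk, hks⟩ := isz_pts v.1
    have k1 := Pool.Agent.H15.KEW.coheight_add_one_le hvx (fun e => hne e.symm)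
    rw [hk] at k1
    have : k = e + 1 := by omega
    rw [this] at k1
    exact k1
  refine ⟨gen (X := X.toTopCat) (pH f π (e + 1) 0) (AH f π (e + 1) 0) y g, ?_, ?_⟩
  · have h0 : gen (X := X.toTopCat) (pH f π (e + 1) 0) (AH f π (e + 1) 0) y
        (gen (X := X.toTopCat) (pH f π (e + 1) 0) (AH f π (e + 1) 0) y g - g) = 0 := by
      ext v
      by_cases h : (pH f π (e + 1) 0 v : X.toTopCat) ⤳ y
      · rw [gen_apply_pos _ _ h, DFinsupp.sub_apply, gen_apply_pos _ _ h, sub_self]
        rfl
      · rw [gen_apply_neg _ _ h]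
        rfl
    rw [h0]
    exact zero_mem _
  · intro y' hy' hdl' hne
    have h0 : gen (X := X.toTopCat) (pH f π (e + 1) 0) (AH f π (e + 1) 0) y'
        (gen (X := X.toTopCat) (pH f π (e + 1) 0) (AH f π (e + 1) 0) y g) = 0 := by
      ext v
      by_cases h' : (pH f π (e + 1) 0 v : X.toTopCat) ⤳ y'
      · by_cases h : (pH f π (e + 1) 0 v : X.toTopCat) ⤳ y
        · exfalso
          obtain ⟨x, -, hx⟩ := huniq v.1.1 v.2 (hv v)
          have e1 := hx y ⟨h, hcl y hdl⟩
          have e2 := hx y' ⟨h', hcl y' hdl'⟩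
          exact hne (e2.trans e1.symm)
        · rw [gen_apply_pos _ _ h', gen_apply_neg _ _ h]
          rfl
      · rw [gen_apply_neg _ _ h']
        rfl
    rw [h0]
    exact zero_mem _

end Pool.Agent.H35.KSJ
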